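import Pool.Agent.Y969.SM.Stm

/-!
# Project SX: comparison of two Gamma densities
-/

set_option autoImplicit false

namespace Pool.Agent.Y812.SX

open Filter Topology
open Pool.Agent.H306R2.SM (om)
open Pool.Agent.H262R4.TM (Rng)
open Pool.Agent.Y969.SM

lemma om_eq (n : ℕ) (hn : n ≠ 0) (T t : ℝ) (hT : 0 < T) :
    om n (n / T) t = (n / T) * (t / T * Real.exp (1 - t / T)) ^ n /
      (√(2 * n) * Stirling.stirlingSeq n) := by
  have hn0 : (0 : ℝ) < n := by exact_mod_cast Nat.pos_of_ne_zero hn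
  have e1 : Real.exp (1 - t / T) ^ n = Real.exp 1 ^ n * Real.exp (-(n / T * t)) := by
    rw [← Real.exp_nat_mul, ← Real.exp_nat_mul, ← Real.exp_add]
    congr 1
    ring
  have h1 : √(2 * (n : ℝ)) ≠ 0 := by positivity
  have h2 : (n.factorial : ℝ) ≠ 0 := by positivity
  unfold om Stirling.stirlingSeq
  rw [mul_pow, e1, div_pow (n : ℝ) (Real.exp 1) n, div_pow t T n, div_pow (n : ℝ) T (n + 1)]
  field_simp
  ring

lemma st_le (κ : ℕ) (hκ : κ ≠ 0) :
    Stirling.stirlingSeq κ ≤ √2 * Stirling.stirlingSeq (2 * κ) := by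
  obtain ⟨j, rfl⟩ := Nat.exists_eq_succ_of_ne_zero hκ
  have h1 : Stirling.stirlingSeq (j + 1) ≤ Stirling.stirlingSeq 1 :=
    Stirling.stirlingSeq'_antitone (Nat.zero_le j)
  rw [Stirling.stirlingSeq_one] at h1
  have h2 := Stirling.sqrt_pi_le_stirlingSeq (n := 2 * (j + 1)) (by omega)
  have h3 : (0 : ℝ) < √2 := by positivity
  have h4 : √2 * √2 = 2 := Real.mul_self_sqrt (by norm_num)
  have h5 : (17 / 10 : ℝ) ≤ √Real.pi := by
    apply Real.le_sqrt_of_sq_le
    have := Real.pi_gt_three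
    norm_num
    linarith
  have h6 := Real.exp_one_lt_d9
  refine h1.trans ?_
  rw [div_le_iff₀ h3]
  calc Real.exp 1 ≤ 2 * √Real.pi := by linarith
    _ = √2 * √Real.pi * √2 := by rw [mul_right_comm, h4]
    _ ≤ √2 * Stirling.stirlingSeq (2 * (j + 1)) * √2 := by gcongr

/-- the quotient of the densities -/
lemma om_two (κ : ℕ) (hκ : κ ≠ 0) (T t : ℝ) (hT : 0 < T) (ht : 0 < t) :
    om (2 * κ) ((2 * κ : ℕ) / T) t ≤
      2 * (t / T * Real.exp (1 - t / T)) ^ κ * om κ (κ / T) t := by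
  rw [om_eq (2 * κ) (by omega) T t hT, om_eq κ hκ T t hT]
  have hκ0 : (0 : ℝ) < κ := by exact_mod_cast Nat.pos_of_ne_zero hκ
  set G := t / T * Real.exp (1 - t / T) with hG
  have hG0 : 0 < G := by positivity
  have s1 : 0 < Stirling.stirlingSeq κ := by
    obtain ⟨j, rfl⟩ := Nat.exists_eq_succ_of_ne_zero hκ
    exact Stirling.stirlingSeq'_pos j
  have s2 : 0 < Stirling.stirlingSeq (2 * κ) := by
    obtain ⟨j, hj⟩ := Nat.exists_eq_succ_of_ne_zero (by omega : 2 * κ ≠ 0)
    rw [hj]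
    exact Stirling.stirlingSeq'_pos j
  have h1 : √(2 * ((2 * κ : ℕ) : ℝ)) = √2 * √(2 * κ) := by
    push_cast
    rw [Real.sqrt_mul (by norm_num)]
  have h2 := st_le κ hκ
  have h3 : (0 : ℝ) < √(2 * κ) := by positivity
  rw [h1, mul_comm 2 κ, pow_mul G κ 2, mul_comm κ 2]
  push_cast
  rw [div_le_iff₀ (by positivity)]
  have h4 : 2 * G ^ κ * (κ / T * G ^ κ / (√(2 * κ) * Stirling.stirlingSeq κ)) *
      (√2 * √(2 * κ) * Stirling.stirlingSeq (2 * κ)) =
      2 * κ / T * (G ^ κ) ^ 2 * ((√2 * Stirling.stirlingSeq (2 * κ)) / Stirling.stirlingSeq κ) := by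
    field_simp
  rw [h4]
  have h5 : 1 ≤ (√2 * Stirling.stirlingSeq (2 * κ)) / Stirling.stirlingSeq κ := by
    rw [le_div_iff₀ s1, one_mul]
    exact h2
  exact le_mul_of_one_le_right (by positivity) h5

/-- the bound of the exponential -/
lemma G_le {y : ℝ} (hy : 0 < y) : y * Real.exp (1 - y) ≤ Real.exp (-(√y - 1) ^ 2) := by
  have h1 : 0 < √y := Real.sqrt_pos.2 hy
  have h2 : √y ^ 2 = y := Real.sq_sqrt hy.le
  have h3 : √y ≤ Real.exp (√y - 1) := by
    have := Real.add_one_le_exp (√y - 1)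
    linarith
  have h4 : y ≤ Real.exp (2 * (√y - 1)) := by
    calc y = √y ^ 2 := h2.symm
      _ ≤ Real.exp (√y - 1) ^ 2 := by gcongr
      _ = Real.exp (2 * (√y - 1)) := by
        rw [← Real.exp_nat_mul]
        norm_num
  calc y * Real.exp (1 - y) ≤ Real.exp (2 * (√y - 1)) * Real.exp (1 - y) := by gcongr
    _ = Real.exp (2 * (√y - 1) + (1 - y)) := (Real.exp_add _ _).symm
    _ = Real.exp (-(√y - 1) ^ 2) := by
      congr 1
      linear_combination h2

lemma abs_le' {y : ℝ} (hy : 0 < y) : |y - 1| ≤ |√y - 1| * (|√y - 1| + 2) := by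
  have h1 : 0 < √y := Real.sqrt_pos.2 hy
  have h2 : √y ^ 2 = y := Real.sq_sqrt hy.le
  have h3 : y - 1 = (√y - 1) * (√y + 1) := by linear_combination -h2
  rw [h3, abs_mul, abs_of_pos (by linarith : 0 < √y + 1)]
  refine mul_le_mul_of_nonneg_left ?_ (abs_nonneg _)
  have := le_abs_self (√y - 1)
  linarith

lemma sup_le (m : ℕ) (K r : ℝ) (hK : 1 ≤ K) (hr : 0 ≤ r) :
    (r * (r + 2)) ^ m * Real.exp (-(K ^ 2 * r ^ 2)) ≤
      2 ^ m * m.factorial * Real.exp 1 / K ^ m := by
  have hK0 : 0 < K := by linarith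
  rw [le_div_iff₀ (by positivity)]
  have h1 : r * (r + 2) * K ≤ 2 * (K ^ 2 * r ^ 2 + 1) := by
    have h2 : r * r * K ≤ (K * r) ^ 2 := by
      have : r * r * 1 ≤ r * r * K := by gcongr
      nlinarith [mul_nonneg hr hr]
    nlinarith [sq_nonneg (K * r - 1), mul_nonneg hr hr]
  have h3 := Real.pow_div_factorial_le_exp (K ^ 2 * r ^ 2 + 1) (by positivity) m
  rw [div_le_iff₀ (by positivity)] at h3
  calc (r * (r + 2)) ^ m * Real.exp (-(K ^ 2 * r ^ 2)) * K ^ m
      = (r * (r + 2) * K) ^ m * Real.exp (-(K ^ 2 * r ^ 2)) := by rw [mul_pow _ K m]; ring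
    _ ≤ (2 * (K ^ 2 * r ^ 2 + 1)) ^ m * Real.exp (-(K ^ 2 * r ^ 2)) := by gcongr
    _ = 2 ^ m * (K ^ 2 * r ^ 2 + 1) ^ m * Real.exp (-(K ^ 2 * r ^ 2)) := by rw [mul_pow]
    _ ≤ 2 ^ m * (Real.exp (K ^ 2 * r ^ 2 + 1) * m.factorial) * Real.exp (-(K ^ 2 * r ^ 2)) := by
      gcongr
    _ = 2 ^ m * m.factorial * (Real.exp (K ^ 2 * r ^ 2 + 1) * Real.exp (-(K ^ 2 * r ^ 2))) := by
      ring
    _ = 2 ^ m * m.factorial * Real.exp 1 := by
      rw [← Real.exp_add]
      congr 2
      ring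

lemma om_nonneg (κ : ℕ) (T t : ℝ) (hT : 0 < T) (ht : 0 < t) : 0 ≤ om κ (κ / T) t := by
  unfold om
  positivity

theorem t_OMX : S_OMX := by
  have hlog := Real.tendsto_log_atTop
  constructor
  · intro m
    refine ⟨2 * (2 ^ m * m.factorial * Real.exp 1), by positivity, ?_⟩
    filter_upwards [hlog.eventually_ge_atTop 1, eventually_gt_atTop 0] with T hT1 hT κ hR t ht
    have hκ1 : (1 : ℝ) ≤ κ := by
      have : (1 : ℝ) ≤ Real.log T ^ 2 := one_le_pow₀ hT1
      exact this.trans hR.1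
    have hκ0 : κ ≠ 0 := by
      rintro rfl
      norm_num at hκ1
    have h1 := om_two κ hκ0 T t hT ht
    have hy : 0 < t / T := by positivity
    set y := t / T with hydef
    have h2 : |(t - T) / T| = |y - 1| := by
      rw [hydef, sub_div, div_self hT.ne']
    have hom := om_nonneg κ T t hT ht
    have hlogκ : Real.log T ≤ √κ := Real.le_sqrt_of_sq_le hR.1
    have hK : 1 ≤ √(κ : ℝ) := hT1.trans hlogκ
    have h3 : |y - 1| ^ m * (y * Real.exp (1 - y)) ^ κ ≤
        2 ^ m * m.factorial * Real.exp 1 / Real.log T ^ m := by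
      calc |y - 1| ^ m * (y * Real.exp (1 - y)) ^ κ
          ≤ (|√y - 1| * (|√y - 1| + 2)) ^ m * Real.exp (-(√y - 1) ^ 2) ^ κ := by
            gcongr
            · exact abs_le' hy
            · exact G_le hy
        _ = (|√y - 1| * (|√y - 1| + 2)) ^ m * Real.exp (-(√(κ : ℝ) ^ 2 * |√y - 1| ^ 2)) := by
            rw [← Real.exp_nat_mul, Real.sq_sqrt (by positivity), sq_abs]
            congr 2
            ring
        _ ≤ 2 ^ m * m.factorial * Real.exp 1 / √(κ : ℝ) ^ m :=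
            sup_le m _ _ hK (abs_nonneg _)
        _ ≤ 2 ^ m * m.factorial * Real.exp 1 / Real.log T ^ m := by
            gcongr
    rw [h2]
    calc |y - 1| ^ m * om (2 * κ) ((2 * κ : ℕ) / T) t
        ≤ |y - 1| ^ m * (2 * (y * Real.exp (1 - y)) ^ κ * om κ (κ / T) t) := by gcongr
      _ = 2 * (|y - 1| ^ m * (y * Real.exp (1 - y)) ^ κ) * om κ (κ / T) t := by ring
      _ ≤ 2 * (2 ^ m * m.factorial * Real.exp 1 / Real.log T ^ m) * om κ (κ / T) t := by gcongr
      _ = 2 * (2 ^ m * m.factorial * Real.exp 1) / Real.log T ^ m * om κ (κ / T) t := by ring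
  · intro A
    filter_upwards [hlog.eventually_ge_atTop (max 1 (25 * (|A| + 1))), eventually_gt_atTop 0] with
      T hTm hT κ hR t ht htT
    have hT1 : 1 ≤ Real.log T := (le_max_left _ _).trans hTm
    have hT2 : 25 * (|A| + 1) ≤ Real.log T := (le_max_right _ _).trans hTm
    have hκ1 : (1 : ℝ) ≤ κ := by
      have : (1 : ℝ) ≤ Real.log T ^ 2 := one_le_pow₀ hT1
      exact this.trans hR.1
    have hκ0 : κ ≠ 0 := by
      rintro rfl
      norm_num at hκ1
    have h1 := om_two κ hκ0 T t hT ht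
    have hy : 0 < t / T := by positivity
    have hom := om_nonneg κ T t hT ht
    have h2 : (1 : ℝ) / 2 ≤ |t / T - 1| := by
      have : t / T - 1 = (t - T) / T := by rw [sub_div, div_self hT.ne']
      rw [this, abs_div, abs_of_pos hT, le_div_iff₀ hT]
      linarith
    set y := t / T with hydef
    have h3 := abs_le' hy
    have h4 : 1 / 25 ≤ (√y - 1) ^ 2 := by
      rw [← sq_abs]
      have h5 : 1 / 5 ≤ |√y - 1| := by
        by_contra hno
        push Not at hno
        have := abs_nonneg (√y - 1)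
        nlinarith
      nlinarith
    have h5 : (y * Real.exp (1 - y)) ^ κ ≤ Real.exp (-(Real.log T ^ 2 / 25)) := by
      calc (y * Real.exp (1 - y)) ^ κ ≤ Real.exp (-(√y - 1) ^ 2) ^ κ := by
            gcongr
            exact G_le hy
        _ = Real.exp (κ * (-(√y - 1) ^ 2)) := (Real.exp_nat_mul _ _).symm
        _ ≤ Real.exp (-(Real.log T ^ 2 / 25)) := by
            apply Real.exp_le_exp.2
            have h6 := hR.1
            nlinarith
    have h6 : 2 * Real.exp (-(Real.log T ^ 2 / 25)) ≤ T ^ (-A) := by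
      rw [Real.rpow_def_of_pos hT]
      have h7 : (2 : ℝ) ≤ Real.exp 1 := by
        have := Real.add_one_le_exp (1 : ℝ)
        linarith
      calc 2 * Real.exp (-(Real.log T ^ 2 / 25))
          ≤ Real.exp 1 * Real.exp (-(Real.log T ^ 2 / 25)) := by gcongr
        _ = Real.exp (1 + -(Real.log T ^ 2 / 25)) := (Real.exp_add _ _).symm
        _ ≤ Real.exp (Real.log T * -A) := by
            apply Real.exp_le_exp.2
            have h8 := le_abs_self A
            nlinarith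
    calc om (2 * κ) ((2 * κ : ℕ) / T) t ≤ 2 * (y * Real.exp (1 - y)) ^ κ * om κ (κ / T) t := h1
      _ ≤ 2 * Real.exp (-(Real.log T ^ 2 / 25)) * om κ (κ / T) t := by gcongr
      _ ≤ T ^ (-A) * om κ (κ / T) t := by gcongr

end Pool.Agent.Y812.SX
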